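import Pool.Agent.Helper93_BEJ.Fin
import Pool.Agent.Helper27_BEK.RWK
import Pool.Agent.Helper77_BEK.RHK
import Pool.Agent.Helper21_BEK.ORK
import Pool.Agent.Helper69_BEK.RDK
import Pool.Agent.Helper89_BEK.HSK
import Pool.Agent.Helper62_BEK.SPK
import Pool.Agent.Helper65_BEK.PHK
import Pool.Agent.Helper6_BEK.WPR
import Pool.Agent.Helper63_BEK.ZKA
import Pool.Agent.Helper8_BEK.ORN
import Pool.Agent.Helper49_BEK.DSK
import Pool.Agent.Helper62_BES.GCF

/-!
# Squad BEK (MP_be01ff_an): all modules together. Every annulus of the plane, every even `α`.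
-/

namespace Pool.Agent.BEK.Fin

open Pool.Agent Pool.Agent.BED Pool.Agent.BEJ Pool.Agent.BEK
open Set Filter Topology MeasureTheory
open scoped InnerProductSpace ENNReal

noncomputable section

theorem rhk : RhkStmt := H77.rhk BES.H62.gcf

theorem ork : OrkStmt := H21.ork H27.rwk rhk BEO.H19.weo

theorem rdk : RdkStmt := H69.rdk BED.H6.rde

theorem hsk : HskStmt := H89.hsk BEJ.Fin.qde

theorem spk : SpkStmt := H62.spk ork rdk hsk

theorem phk : PhkStmt := H65.phk H27.rwk rhk hsk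

theorem wpr : WprStmt := H6.wpr BEJ.Fin.was

theorem zka : ZkaStmt := H63.zka BEJ.Fin.qde wpr

theorem orn : OrnStmt := H8.orn wpr

/-- Every annulus, every even `α` (version with `Lp`). -/
theorem dsk : DskStmt := H49.dsk BED.Fin.fn3 spk phk wpr zka orn

/-- Every annulus, every even `α`. -/
theorem annulus (r R a : ℝ) (p : ℕ) (hr : 0 < r) (hR : r < R) (ha : 0 < a) (hp : 1 ≤ p) :
    BE01F.SharpRate {y : EuclideanSpace ℝ (Fin 2) | r < ‖y‖ ∧ ‖y‖ < R} a ((2 * p : ℕ) : ℝ) :=
  Helper70BE01Conv.sharp_of (dsk r R a p hr hR ha hp)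

end

end Pool.Agent.BEK.Fin
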